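import Pool.Agent.K4H27.FT.Rare

/-!
# The Tate conjecture for Fermat varieties over finite fields of bounded degree

Let `n = k - 2` be even and let `f > 0`. We consider the Fermat varieties of dimension `n` and
degree `m` over the field with `p ^ f` elements, for all primes `p` and all divisors `m` of
`p ^ f - 1`. The Tate classes on them are given by the Tate tuples: `k` nonzero residues modulo `m`
whose multiset is a Tate character. The exceptional ones are those which do not come, after raising
the degree to a multiple prime to `p`, from the characters of surfaces and the standard characters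
of Aoki. There are constants `M`, `C` which depend only on `k` and `f` such that the proportion of
the exceptional tuples among all Tate tuples is at most `(C / m) ^ (1 / 2)`, such that their number
is at most `C * m ^ (k / 2 - 1)` if `f` is odd (there are at least `(m - 1) ^ (k / 2)` Tate tuples),
and such that there are none if `m` is prime to `M`.
-/

namespace Pool.Agent.Results.MP_021685_ag.FermatBoundedFrobenius

open Pool.Agent.H916T

/-- The multiset of the entries of a tuple. -/
def entries {k m : ℕ} (a : Fin k → ZMod m) : Multiset (ZMod m) :=
  (Finset.univ : Finset (Fin k)).val.map a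

/-- The Tate tuples with `k` entries of degree `m` in characteristic `p`. -/
def TateTuples (p m k : ℕ) : Set (Fin k → ZMod m) := {a | IsTate p m (entries a)}

/-- The exceptional Tate tuples: no multiple `N * m` of the degree, with `N` prime to `p`, brings
the character into the closure (under union, pairs `{a, -a}` and their removal) of the Tate
characters with four entries and of the standard characters. -/
def ExceptionalTuples (p m k : ℕ) : Set (Fin k → ZMod m) :=
  {a | IsTate p m (entries a) ∧ ¬ ∃ N : ℕ, 0 < N ∧ p.Coprime N ∧
    Generated (N * m)
      (fun t => SurfaceTate p (N * m) t ∨ ∃ q : ℕ, q.Prime ∧ q ∣ N * m ∧ Standard q (N * m) t)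
      ((entries a).map fun b => ((N * b.val : ℕ) : ZMod (N * m)))}

theorem result (k f : ℕ) (hf : 0 < f) : ∃ M C : ℕ, 0 < M ∧ 0 < C ∧
    ∀ p : ℕ, p.Prime → ∀ m : ℕ, 0 < m → m ∣ p ^ f - 1 →
      (ExceptionalTuples p m k).ncard ^ 2 * m ≤ C * (TateTuples p m k).ncard ^ 2 ∧
      (Odd f → (ExceptionalTuples p m k).ncard * m ≤ C * m ^ (k / 2)) ∧
      (m.Coprime M → ExceptionalTuples p m k = ∅) :=
  Pool.Agent.K4H27.FT.exc_rare k f hf

end Pool.Agent.Results.MP_021685_ag.FermatBoundedFrobenius
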