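import Pool.Agent.K4H54.BJ.Pic

/-!
# Surjectivity onto the Hodge classes and mixed Hodge substructures

`A` is an abelian category without `Ext` groups in degrees `≥ 2`, `D^b(A)` is its bounded derived
category, `T` is a tensor triangulated category and `R : T ⥤ D^b(A)` is a triangulated tensor
functor; `H^i(X)` is the cohomology of `R(X)`. For the problem: `A` is the category of polarizable
mixed Hodge structures over `ℚ`, `T = DM_gm(ℚ̄; ℚ)` and `R` is the Hodge realization, so that for
`Y = M(X)^∨(j)[i]` the map `Hom(𝟙, Y) ⟶ Hom(R 𝟙, R Y)` is the regulator
`H^i_M(X, ℚ(j)) ⟶ H^i_H(X, ℚ(j))` and `Hom(H⁰(𝟙), H⁰(Y)) = Hg^{i,j}(X)`.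

`C` is a class of objects which generates `T` and has the properties of the class of Chow motives:
it is closed under direct summands, tensor products and duals, the cohomology of its members is
semisimple, and there are no non-zero morphisms between the cohomology objects of different degrees
(purity).

Theorem. The regulators of all objects of `T` are surjective onto the Hodge classes if and only if
the realization is conservative and every subobject `V` of `H^i(X)`, for all `X` in `T` and all `i`,
is motivic: there is a morphism `f : N ⟶ X` such that the cohomology of `N` is concentrated in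
degree `i` and `H^i(f)` is the inclusion of `V`.
-/

set_option autoImplicit false

open CategoryTheory MonoidalCategory Limits Pretriangulated

universe w v u v' u'

namespace Pool.Agent.K4H54.Retired.HodgeSubstructures

open Pool.Agent.K4H54.BJ

/-- Surjectivity onto the Hodge classes for all objects means that the realization is conservative
and that all subobjects of the cohomology of objects of `T` are motivic. -/
theorem result
    {T : Type u} [Category.{v} T] [Preadditive T] [HasZeroObject T] [HasShift T ℤ]
    [∀ n : ℤ, (shiftFunctor T n).Additive] [Pretriangulated T] [IsTriangulated T]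
    [IsIdempotentComplete T] [MonoidalCategory T] [MonoidalPreadditive T]
    {A : Type u'} [Category.{v'} A] [Abelian A] [HasDerivedCategory.{w} A]
    [MonoidalCategory (DerivedCategory.Bounded A)]
    [MonoidalPreadditive (DerivedCategory.Bounded A)]
    (R : T ⥤ DerivedCategory.Bounded A) [R.CommShift ℤ] [R.IsTriangulated] [R.Monoidal]
    (C : T → Prop) (hA : ExtVan A) (ht : Tens R (Hb A)) (hC : ChowClass R (Hb A) C) :
    (∀ Y : T, HodgeSurj R (Hb A) Y) ↔ (∀ X : T, IsZero (R.obj X) → IsZero X) ∧
      ∀ (X : T) (i : ℤ) (V : A) (m : V ⟶ Ho R (Hb A) i X), Mono m →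
        ∃ (N : T) (f : N ⟶ X) (e : Ho R (Hb A) i N ≅ V),
          (∀ j : ℤ, j ≠ i → IsZero (Ho R (Hb A) j N)) ∧ ho R (Hb A) i f = e.hom ≫ m :=
  surj_iff_sub (dbHer hA) ht hC

end Pool.Agent.K4H54.Retired.HodgeSubstructures
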